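import Mathlib

set_option autoImplicit false

open Filter Topology Finset

namespace Pool.Agent.Results.MP_89b5f7_an.LevyTwo

/-- The Euclidean plane. -/
abbrev E := EuclideanSpace ℝ (Fin 2)

/-- The series `∑ x n`, summed in the given order, converges to `s`. -/
def SumsTo (x : ℕ → E) (s : E) : Prop :=
  Tendsto (fun N => ∑ n ∈ range N, x n) atTop (𝓝 s)

/-- Conditional convergence. -/
def CondConv (x : ℕ → E) : Prop :=
  (∃ s, SumsTo x s) ∧ ¬ Summable (fun n => ‖x n‖)

/-- The sum range. -/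
def SR (x : ℕ → E) : Set E := {s | ∃ σ : Equiv.Perm ℕ, SumsTo (fun n => x (σ n)) s}

/-- The achievement set. -/
def A (x : ℕ → E) : Set E :=
  {s | ∃ ε : ℕ → ℝ, (∀ n, ε n = 0 ∨ ε n = 1) ∧ SumsTo (fun n => ε n • x n) s}

/-- The cone `S_ε(u)`. -/
def Scone (ε : ℝ) (u : E) : Set E := {v | (1 - ε) * ‖u‖ * ‖v‖ ≤ inner ℝ u v}

/-- The set of Levy vectors. -/
def Levy (x : ℕ → E) : Set E :=
  {u | ‖u‖ = 1 ∧ ∀ ε : ℝ, 0 < ε →
    ¬ Summable (Set.indicator {n | x n ∈ Scone ε u} (fun n => ‖x n‖))}

/-! ### General lemmas -/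

theorem sumsTo_iff (y : ℕ → E) (s : E) : SumsTo y s ↔
    Tendsto (fun N => ∑ n ∈ range N, y n 0) atTop (𝓝 (s 0)) ∧
    Tendsto (fun N => ∑ n ∈ range N, y n 1) atTop (𝓝 (s 1)) := by
  unfold SumsTo
  have h1 : ∀ (N : ℕ) (i : Fin 2), (∑ n ∈ range N, y n) i = ∑ n ∈ range N, y n i := by
    intro N i
    simp
  constructor
  · intro h
    have h0 := fun i : Fin 2 =>
      ((EuclideanSpace.proj i : E →L[ℝ] ℝ).continuous.tendsto s).comp h
    constructor
    · have := h0 0
      refine this.congr (fun N => ?_)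
      simp
    · have := h0 1
      refine this.congr (fun N => ?_)
      simp
  · rintro ⟨ha, hb⟩
    have h2 : Tendsto (fun N => (WithLp.toLp 2 (fun i => (∑ n ∈ range N, y n) i) : E)) atTop
        (𝓝 (WithLp.toLp 2 (fun i => s i))) := by
      refine ((PiLp.continuous_toLp 2 (fun _ : Fin 2 => ℝ)).tendsto _).comp ?_
      rw [tendsto_pi_nhds]
      intro i
      fin_cases i
      · simpa using ha
      · simpa using hb
    exact h2

theorem sum6 (f : ℕ → ℝ) (Q : ℕ) : ∑ i ∈ range (6 * Q), f i =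
    ∑ q ∈ range Q, (f (6 * q) + f (6 * q + 1) + f (6 * q + 2) + f (6 * q + 3) + f (6 * q + 4)
      + f (6 * q + 5)) := by
  induction Q with
  | zero => simp
  | succ Q ih =>
    rw [sum_range_succ, ← ih, show 6 * (Q + 1) = 6 * Q + 1 + 1 + 1 + 1 + 1 + 1 by ring]
    simp only [sum_range_succ]
    ring

theorem tend6 (f : ℕ → ℝ) (s : ℝ) (h0 : Tendsto f atTop (𝓝 0))
    (h6 : Tendsto (fun q => ∑ i ∈ range (6 * q), f i) atTop (𝓝 s)) :
    Tendsto (fun N => ∑ i ∈ range N, f i) atTop (𝓝 s) := by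
  have hdiv : Tendsto (fun N : ℕ => N / 6) atTop atTop :=
    tendsto_atTop_atTop.2 fun b => ⟨6 * b, fun a ha => by omega⟩
  have hA := h6.comp hdiv
  have hB : Tendsto (fun N : ℕ => ∑ i ∈ range 6, |f (6 * (N / 6) + i)|) atTop (𝓝 0) := by
    have : (0 : ℝ) = ∑ i ∈ range 6, |(0 : ℝ)| := by simp
    rw [this]
    refine tendsto_finsetSum _ (fun i _ => ?_)
    refine (h0.comp ?_).abs
    exact tendsto_atTop_atTop.2 fun b => ⟨6 * b + 6, fun a ha => by omega⟩
  have hC : Tendsto (fun N : ℕ => ∑ i ∈ range N, f i - ∑ i ∈ range (6 * (N / 6)), f i) atTop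
      (𝓝 0) := by
    refine squeeze_zero_norm (fun N => ?_) hB
    have hN : N = 6 * (N / 6) + N % 6 := (Nat.div_add_mod N 6).symm
    have h1 : ∑ i ∈ range N, f i = ∑ i ∈ range (6 * (N / 6)), f i +
        ∑ i ∈ range (N % 6), f (6 * (N / 6) + i) := by
      conv_lhs => rw [hN]
      rw [sum_range_add]
    rw [h1, add_sub_cancel_left, Real.norm_eq_abs]
    refine (abs_sum_le_sum_abs _ _).trans ?_
    apply sum_le_sum_of_subset_of_nonneg
    · intro i hi
      rw [mem_range] at hi ⊢
      omega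
    · intros; positivity
  have hD := hA.add hC
  rw [add_zero] at hD
  refine hD.congr (fun N => ?_)
  simp

/-- Greedy choice of signs. -/
theorem greedy (c : ℕ → ℝ) (hc : ∀ q, 0 < c q) (hc0 : Tendsto c atTop (𝓝 0))
    (hcs : ¬ Summable c) (a : ℝ) : ∃ μ : ℕ → ℝ, (∀ q, μ q = 1 ∨ μ q = -1) ∧
      Tendsto (fun N => ∑ q ∈ range N, μ q * c q) atTop (𝓝 a) := by
  classical
  obtain ⟨s, s0, ss⟩ : ∃ s : ℕ → ℝ, s 0 = 0 ∧
      ∀ q, s (q + 1) = if s q ≤ a then s q + c q else s q - c q :=
    ⟨fun n => Nat.rec (0 : ℝ) (fun q (v : ℝ) => if v ≤ a then v + c q else v - c q) n,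
      rfl, fun q => rfl⟩
  refine ⟨fun q => if s q ≤ a then (1 : ℝ) else -1, fun q => ?_, ?_⟩
  · by_cases h : s q ≤ a
    · left; simp [h]
    · right; simp [h]
  have hs : ∀ N, ∑ q ∈ range N, (if s q ≤ a then (1 : ℝ) else -1) * c q = s N := by
    intro N
    induction N with
    | zero => simp [s0]
    | succ N ih =>
      rw [sum_range_succ, ih, ss]
      split_ifs <;> ring
  simp only [hs]
  have hD : ∀ q, |s (q + 1) - a| = |(|s q - a|) - c q| := by
    intro q
    rw [ss]
    by_cases h : s q ≤ a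
    · rw [if_pos h, abs_of_nonpos (by linarith : s q - a ≤ 0), ← abs_neg]
      congr 1; ring
    · rw [if_neg h, abs_of_pos (by push Not at h; linarith : 0 < s q - a)]
      congr 1; ring
  rw [Metric.tendsto_atTop]
  intro ε hε
  obtain ⟨Q, hQ⟩ := (Metric.tendsto_atTop.1 hc0) ε hε
  have hQ' : ∀ q, Q ≤ q → c q < ε := by
    intro q hq
    have := hQ q hq
    rw [Real.dist_eq, sub_zero] at this
    exact (le_abs_self _).trans_lt this
  have hex : ∃ q, Q ≤ q ∧ |s q - a| < ε := by
    by_contra hno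
    push Not at hno
    have h1 : ∀ n, |s (Q + n) - a| = |s Q - a| - ∑ j ∈ range n, c (Q + j) := by
      intro n
      induction n with
      | zero => simp
      | succ n ih =>
        rw [← add_assoc, hD, sum_range_succ, ← sub_sub, ← ih]
        apply abs_of_nonneg
        have := hno (Q + n) (by omega)
        have := hQ' (Q + n) (by omega)
        linarith
    have h2 : Summable (fun j => c (Q + j)) := by
      apply summable_of_sum_range_le (c := |s Q - a|) (fun j => (hc _).le)
      intro n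
      have := h1 n
      have := abs_nonneg (s (Q + n) - a)
      linarith
    apply hcs
    rw [← summable_nat_add_iff Q]
    refine h2.congr (fun j => ?_)
    rw [add_comm]
  obtain ⟨q₁, hq₁, hq₁'⟩ := hex
  refine ⟨q₁, fun q hq => ?_⟩
  rw [Real.dist_eq]
  induction q, hq using Nat.le_induction with
  | base => exact hq₁'
  | succ q hq ih =>
    rw [hD]
    have h1 := hQ' q (hq₁.trans hq)
    have h2 := hc q
    have h3 := abs_nonneg (s q - a)
    rw [abs_lt]
    constructor <;> linarith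

/-- Sorting: an injective key. -/
theorem sort_nat (ρ : ℕ → ℕ) (hρ : Function.Injective ρ) :
    ∃ σ : Equiv.Perm ℕ, StrictMono (fun n => ρ (σ n)) := by
  classical
  have : Infinite (Set.range ρ) := Set.infinite_coe_iff.2 (Set.infinite_range_of_injective hρ)
  let e := Nat.Subtype.orderIsoOfNat (Set.range ρ)
  let f := Equiv.ofInjective ρ hρ
  refine ⟨e.toEquiv.trans f.symm, ?_⟩
  have h1 : ∀ n, ρ ((e.toEquiv.trans f.symm) n) = (e n : ℕ) := by
    intro n
    have h2 : f (f.symm (e n)) = e n := f.apply_symm_apply _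
    have h3 : (f (f.symm (e n)) : ℕ) = ρ (f.symm (e n)) := rfl
    show ρ (f.symm (e n)) = _
    rw [← h3, h2]
  intro n m hnm
  show ρ _ < ρ _
  rw [h1, h1]
  exact e.strictMono hnm

/-- Sorting with respect to a real key with finite sublevel sets. -/
theorem sort_real (g : ℕ → ℝ) (hg : ∀ t, {n | g n ≤ t}.Finite) :
    ∃ σ : Equiv.Perm ℕ, Monotone (fun n => g (σ n)) := by
  classical
  let S : ℕ → Set ℕ := fun i => {j | g j < g i ∨ (g j = g i ∧ j < i)}
  have hfin : ∀ i, (S i).Finite := fun i => (hg (g i)).subset (by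
    rintro j (h | h)
    · exact h.le
    · exact h.1.le)
  let ρ : ℕ → ℕ := fun i => (S i).ncard
  have hlt : ∀ i j, (g i < g j ∨ (g i = g j ∧ i < j)) → ρ i < ρ j := by
    intro i j hij
    apply Set.ncard_lt_ncard _ (hfin j)
    refine ⟨?_, fun h => ?_⟩
    · rintro k (hk | hk)
      · rcases hij with h | h
        · left; exact hk.trans h
        · left; exact hk.trans_eq h.1
      · rcases hij with h | h
        · left; exact hk.1.trans_lt h
        · right; exact ⟨hk.1.trans h.1, hk.2.trans h.2⟩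
    · have : i ∈ S i := h hij
      rcases this with h | h
      · exact lt_irrefl _ h
      · exact lt_irrefl _ h.2
  have hinj : Function.Injective ρ := by
    intro i j hij
    by_contra hne
    rcases lt_trichotomy (g i) (g j) with h | h | h
    · exact (hlt i j (Or.inl h)).ne hij
    · rcases lt_or_gt_of_ne hne with h' | h'
      · exact (hlt i j (Or.inr ⟨h, h'⟩)).ne hij
      · exact (hlt j i (Or.inr ⟨h.symm, h'⟩)).ne hij.symm
    · exact (hlt j i (Or.inl h)).ne hij.symm
  obtain ⟨σ, hσ⟩ := sort_nat ρ hinj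
  refine ⟨σ, fun n m hnm => ?_⟩
  by_contra hno
  push Not at hno
  have h1 := hlt _ _ (Or.inl hno)
  have h2 := hσ.monotone hnm
  exact absurd h1 (not_lt.2 h2)

theorem sum_perm (σ : Equiv.Perm ℕ) (f : ℕ → ℝ) (N M : ℕ) (hM : ∀ n, n < N → σ n < M) :
    ∑ n ∈ range N, f (σ n) = ∑ i ∈ range M, if σ.symm i < N then f i else 0 := by
  rw [← sum_filter]
  refine sum_nbij' (fun n => σ n) (fun i => σ.symm i) ?_ ?_ ?_ ?_ ?_
  · intro n hn
    rw [mem_range] at hn
    simp [hM n hn, hn]
  · intro i hi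
    simp only [mem_filter] at hi
    simpa using hi.2
  · intro n _; simp
  · intro i _; simp
  · intro n _; rfl

theorem sum_ite_lt (c : ℕ → ℝ) (p Q : ℕ) (h : p ≤ Q) :
    ∑ q ∈ range Q, (if q < p then c q else 0) = ∑ q ∈ range p, c q := by
  rw [← sum_filter]
  congr 1
  ext q
  simp only [mem_filter, mem_range]
  omega

/-- The position structure of one class. -/
theorem cls (σ : Equiv.Perm ℕ) (g : ℕ → ℝ) (hσ : Monotone (fun n => g (σ n))) (φ : ℕ → ℕ)
    (hφ : Function.Injective φ) (hκ : StrictMono (fun q => g (φ q))) :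
    ∃ p : ℕ → ℕ, (∀ N q, σ.symm (φ q) < N ↔ q < p N) ∧ (∀ N, g (σ N) ≤ g (φ (p N))) ∧
      (∀ N q, q + 1 = p N → g (φ q) ≤ g (σ N)) ∧ Tendsto p atTop atTop := by
  classical
  have hex : ∀ N, ∃ q, N ≤ σ.symm (φ q) := by
    intro N
    have h1 : Function.Injective (fun q => σ.symm (φ q)) := σ.symm.injective.comp hφ
    have h2 := h1.nat_tendsto_atTop
    exact (h2.eventually_ge_atTop N).exists
  have hiff : ∀ N q, σ.symm (φ q) < N ↔ q < Nat.find (hex N) := by
    intro N q
    constructor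
    · intro h
      by_contra hno
      push Not at hno
      have h1 := Nat.find_spec (hex N)
      have h2 : g (σ (σ.symm (φ q))) ≤ g (σ (σ.symm (φ (Nat.find (hex N))))) :=
        hσ (h.le.trans h1)
      rw [Equiv.apply_symm_apply, Equiv.apply_symm_apply] at h2
      have h3 : q ≤ Nat.find (hex N) := hκ.le_iff_le.1 h2
      have h4 : q = Nat.find (hex N) := le_antisymm h3 hno
      rw [← h4] at h1
      omega
    · intro h
      have := Nat.find_min (hex N) h
      omega
  refine ⟨fun N => Nat.find (hex N), hiff, fun N => ?_, fun N q hq => ?_, ?_⟩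
  · have h1 := Nat.find_spec (hex N)
    have h2 := hσ h1
    simpa using h2
  · have hq' : q + 1 = Nat.find (hex N) := hq
    have h1 : σ.symm (φ q) < N := (hiff N q).2 (by omega)
    have h2 := hσ h1.le
    simpa using h2
  · rw [tendsto_atTop_atTop]
    intro b
    refine ⟨σ.symm (φ b) + 1, fun N hN => ?_⟩
    exact ((hiff N b).1 (by omega)).le

/-! ### The series -/

/-- The level. -/
def L (q : ℕ) : ℕ := Nat.sqrt (Nat.log 2 q)

/-- Horizontal size. -/
noncomputable def d (q : ℕ) : ℝ := (1 / 2) ^ (L q ^ 2)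

/-- Vertical size. -/
noncomputable def h (q : ℕ) : ℝ := (1 / 2) ^ (L q)

/-- First coordinate pattern. -/
noncomputable def px (q r : ℕ) : ℝ := if r = 0 then d q else if r = 2 then - d q else 0

/-- Second coordinate pattern. -/
noncomputable def py (q r : ℕ) : ℝ := if r = 0 ∨ r = 3 ∨ r = 4 then h q else - h q

/-- The series. -/
noncomputable def x (n : ℕ) : E := !₂[px (n / 6) (n % 6), py (n / 6) (n % 6)]

theorem x0 (n : ℕ) : x n 0 = px (n / 6) (n % 6) := rfl
theorem x1 (n : ℕ) : x n 1 = py (n / 6) (n % 6) := rfl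

theorem d_pos (q : ℕ) : 0 < d q := by unfold d; positivity
theorem h_pos (q : ℕ) : 0 < h q := by unfold h; positivity

theorem d_le_h (q : ℕ) : d q ≤ h q := by
  unfold d h
  apply pow_le_pow_of_le_one (by norm_num) (by norm_num)
  nlinarith [Nat.zero_le (L q), Nat.le_self_pow (n := 2) (by norm_num) (L q)]

theorem L_tendsto : Tendsto L atTop atTop := by
  rw [tendsto_atTop_atTop]
  intro k
  refine ⟨2 ^ (k ^ 2), fun q hq => ?_⟩
  unfold L
  rw [Nat.le_sqrt']
  have h1 := Nat.log_mono_right (b := 2) hq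
  rwa [Nat.log_pow (by norm_num)] at h1

theorem h_tendsto : Tendsto h atTop (𝓝 0) :=
  (tendsto_pow_atTop_nhds_zero_of_lt_one (by norm_num) (by norm_num)).comp L_tendsto

theorem d_tendsto : Tendsto d atTop (𝓝 0) :=
  squeeze_zero (fun q => (d_pos q).le) d_le_h h_tendsto

theorem d_ge (q : ℕ) : 1 / ((q : ℝ) + 1) ≤ d q := by
  unfold d
  have h1 : (1 / 2 : ℝ) ^ (Nat.log 2 q) ≤ (1 / 2) ^ (L q ^ 2) :=
    pow_le_pow_of_le_one (by norm_num) (by norm_num) (Nat.sqrt_le' _)
  refine le_trans ?_ h1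
  rw [one_div_pow]
  apply one_div_le_one_div_of_le (by positivity)
  rcases Nat.eq_zero_or_pos q with h0 | h0
  · subst h0; simp
  · have := Nat.pow_log_le_self 2 h0.ne'
    have h2 : ((2 ^ Nat.log 2 q : ℕ) : ℝ) ≤ q := by exact_mod_cast this
    push_cast at h2
    linarith

theorem d_not_summable : ¬ Summable d := by
  intro hs
  have h1 : Summable (fun q : ℕ => 1 / ((q : ℝ) + 1)) :=
    Summable.of_nonneg_of_le (fun q => by positivity) d_ge hs
  have h2 : Summable (fun q : ℕ => ((q : ℝ))⁻¹) := by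
    rw [← summable_nat_add_iff 1]
    refine h1.congr (fun q => ?_)
    push_cast
    rw [one_div]
  exact Real.not_summable_natCast_inv h2

theorem h_not_summable : ¬ Summable h := fun hs =>
  d_not_summable (Summable.of_nonneg_of_le (fun q => (d_pos q).le) d_le_h hs)

theorem abs_px (q r : ℕ) : |px q r| ≤ h q := by
  unfold px
  have h1 := d_pos q
  have h2 := d_le_h q
  split_ifs
  · rw [abs_of_pos h1]; exact h2
  · rw [abs_neg, abs_of_pos h1]; exact h2
  · rw [abs_zero]; linarith

theorem abs_py (q r : ℕ) : |py q r| = h q := by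
  unfold py
  split_ifs
  · rw [abs_of_pos (h_pos q)]
  · rw [abs_neg, abs_of_pos (h_pos q)]

theorem div6 : Tendsto (fun n : ℕ => n / 6) atTop atTop :=
  tendsto_atTop_atTop.2 fun b => ⟨6 * b, fun a ha => by omega⟩

theorem x0_tendsto : Tendsto (fun n => |x n 0|) atTop (𝓝 0) :=
  squeeze_zero (fun _ => abs_nonneg _) (fun _ => abs_px _ _) (h_tendsto.comp div6)

theorem x1_tendsto : Tendsto (fun n => |x n 1|) atTop (𝓝 0) :=
  squeeze_zero (fun _ => abs_nonneg _) (fun _ => (abs_py _ _).le) (h_tendsto.comp div6)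

theorem x0_r (q r : ℕ) (hr : r < 6) : x (6 * q + r) 0 = px q r := by
  rw [x0]
  congr 1 <;> omega

theorem x1_r (q r : ℕ) (hr : r < 6) : x (6 * q + r) 1 = py q r := by
  rw [x1]
  congr 1 <;> omega

/-- Partial sums of weighted series. -/
theorem weighted (ε : ℕ → ℝ) (hε : ∀ n, ε n = 0 ∨ ε n = 1) (s : E)
    (h0 : Tendsto (fun Q => ∑ q ∈ range Q, (ε (6 * q) * d q - ε (6 * q + 2) * d q)) atTop
      (𝓝 (s 0)))
    (h1 : Tendsto (fun Q => ∑ q ∈ range Q, (ε (6 * q) * h q - ε (6 * q + 1) * h q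
      - ε (6 * q + 2) * h q + ε (6 * q + 3) * h q + ε (6 * q + 4) * h q - ε (6 * q + 5) * h q))
      atTop (𝓝 (s 1))) : SumsTo (fun n => ε n • x n) s := by
  have hab : ∀ n, |ε n| ≤ 1 := by
    intro n
    rcases hε n with h | h <;> simp [h]
  rw [sumsTo_iff]
  constructor
  · apply tend6
    · refine squeeze_zero_norm (fun n => ?_) x0_tendsto
      show |ε n * x n 0| ≤ |x n 0|
      rw [abs_mul]
      have := hab n
      nlinarith [abs_nonneg (x n 0)]
    · refine h0.congr (fun Q => ?_)
      rw [sum6]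
      apply sum_congr rfl
      intro q _
      have e0 := x0_r q 0 (by norm_num)
      have e1 := x0_r q 1 (by norm_num)
      have e2 := x0_r q 2 (by norm_num)
      have e3 := x0_r q 3 (by norm_num)
      have e4 := x0_r q 4 (by norm_num)
      have e5 := x0_r q 5 (by norm_num)
      simp only [add_zero] at e0
      simp [e0, e1, e2, e3, e4, e5, px]
      ring
  · apply tend6
    · refine squeeze_zero_norm (fun n => ?_) x1_tendsto
      show |ε n * x n 1| ≤ |x n 1|
      rw [abs_mul]
      have := hab n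
      nlinarith [abs_nonneg (x n 1)]
    · refine h1.congr (fun Q => ?_)
      rw [sum6]
      apply sum_congr rfl
      intro q _
      have e0 := x1_r q 0 (by norm_num)
      have e1 := x1_r q 1 (by norm_num)
      have e2 := x1_r q 2 (by norm_num)
      have e3 := x1_r q 3 (by norm_num)
      have e4 := x1_r q 4 (by norm_num)
      have e5 := x1_r q 5 (by norm_num)
      simp only [add_zero] at e0
      simp [e0, e1, e2, e3, e4, e5, py]
      ring

theorem x_sumsTo : SumsTo x 0 := by
  have := weighted (fun _ => 1) (fun _ => Or.inr rfl) 0 (by simp) (by simp)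
  simpa using this

theorem norm_ge (n : ℕ) : h (n / 6) ≤ ‖x n‖ := by
  rw [EuclideanSpace.norm_eq, Fin.sum_univ_two, x0, x1]
  apply Real.le_sqrt_of_sq_le
  rw [Real.norm_eq_abs, Real.norm_eq_abs, abs_py]
  nlinarith [sq_nonneg (|px (n / 6) (n % 6)|)]

theorem x_not_summable : ¬ Summable (fun n => ‖x n‖) := by
  intro hs
  have h1 : Summable (fun q => ‖x (6 * q)‖) :=
    hs.comp_injective (i := fun q : ℕ => 6 * q) (fun a b hab => by simpa using hab)
  apply h_not_summable
  refine Summable.of_nonneg_of_le (fun q => (h_pos q).le) (fun q => ?_) h1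
  have := norm_ge (6 * q)
  rwa [show 6 * q / 6 = q by omega] at this

theorem A_univ : A x = Set.univ := by
  classical
  rw [Set.eq_univ_iff_forall]
  intro s
  obtain ⟨μ, hμ, hμs⟩ := greedy d d_pos d_tendsto d_not_summable (s 0)
  obtain ⟨ν, hν, hνs⟩ := greedy h h_pos h_tendsto h_not_summable (s 1)
  let ε : ℕ → ℝ := fun n =>
    if n % 6 = 0 ∨ n % 6 = 1 then (if μ (n / 6) = 1 then 1 else 0)
    else if n % 6 = 2 ∨ n % 6 = 3 then (if μ (n / 6) = 1 then 0 else 1)
    else if n % 6 = 4 then (if ν (n / 6) = 1 then 1 else 0)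
    else (if ν (n / 6) = 1 then 0 else 1)
  have e0 : ∀ q, ε (6 * q) = if μ q = 1 then 1 else 0 := by
    intro q
    simp only [ε, show 6 * q % 6 = 0 by omega, show 6 * q / 6 = q by omega]
    simp
  have e1 : ∀ q, ε (6 * q + 1) = if μ q = 1 then 1 else 0 := by
    intro q
    simp only [ε, show (6 * q + 1) % 6 = 1 by omega, show (6 * q + 1) / 6 = q by omega]
    simp
  have e2 : ∀ q, ε (6 * q + 2) = if μ q = 1 then 0 else 1 := by
    intro q
    simp only [ε, show (6 * q + 2) % 6 = 2 by omega, show (6 * q + 2) / 6 = q by omega]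
    simp
  have e3 : ∀ q, ε (6 * q + 3) = if μ q = 1 then 0 else 1 := by
    intro q
    simp only [ε, show (6 * q + 3) % 6 = 3 by omega, show (6 * q + 3) / 6 = q by omega]
    simp
  have e4 : ∀ q, ε (6 * q + 4) = if ν q = 1 then 1 else 0 := by
    intro q
    simp only [ε, show (6 * q + 4) % 6 = 4 by omega, show (6 * q + 4) / 6 = q by omega]
    simp
  have e5 : ∀ q, ε (6 * q + 5) = if ν q = 1 then 0 else 1 := by
    intro q
    simp only [ε, show (6 * q + 5) % 6 = 5 by omega, show (6 * q + 5) / 6 = q by omega]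
    simp
  refine ⟨ε, fun n => ?_, ?_⟩
  · simp only [ε]
    split_ifs <;> simp
  · apply weighted ε
    · intro n
      simp only [ε]
      split_ifs <;> simp
    · refine hμs.congr (fun Q => ?_)
      apply sum_congr rfl
      intro q _
      rw [e0, e2]
      rcases hμ q with h | h
      · simp [h]
      · rw [h]; norm_num
    · refine hνs.congr (fun Q => ?_)
      apply sum_congr rfl
      intro q _
      rw [e0, e1, e2, e3, e4, e5]
      rcases hν q with h | h
      · rw [h]; norm_num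
      · rw [h]; norm_num

/-! ### The sum range -/

/-- Partial sums. -/
noncomputable def D (c : ℕ → ℝ) (q : ℕ) : ℝ := ∑ j ∈ range q, c j

theorem D_succ (c : ℕ → ℝ) (q : ℕ) : D c (q + 1) = D c q + c q := sum_range_succ _ _

theorem D_strict (c : ℕ → ℝ) (hc : ∀ q, 0 < c q) : StrictMono (D c) :=
  strictMono_nat_of_lt_succ fun q => by rw [D_succ]; linarith [hc q]

theorem D_tendsto (c : ℕ → ℝ) (hc : ∀ q, 0 < c q) (hcs : ¬ Summable c) :
    Tendsto (D c) atTop atTop :=
  (not_summable_iff_tendsto_nat_atTop_of_nonneg (fun q => (hc q).le)).1 hcs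

theorem D_fin (c : ℕ → ℝ) (hc : ∀ q, 0 < c q) (hcs : ¬ Summable c) (t : ℝ) :
    {q | D c q ≤ t}.Finite := by
  obtain ⟨Q, hQ⟩ := ((D_tendsto c hc hcs).eventually_gt_atTop t).exists_forall_of_atTop
  refine (Set.finite_lt_nat Q).subset (fun q hq => ?_)
  by_contra hno
  have h1 := hQ q (by simpa using hno)
  have h2 : D c q ≤ t := hq
  linarith

/-- Keys for the rearrangement with sum `(a, b)`. -/
noncomputable def key (a b : ℝ) (r q : ℕ) : ℝ :=
  if r = 0 ∨ r = 1 then D d q else if r = 2 ∨ r = 3 then D d q + a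
  else if r = 4 then D h q else D h q + b

theorem key_strict (a b : ℝ) (r : ℕ) : StrictMono (key a b r) := by
  intro q q' hq
  have h1 := D_strict d d_pos hq
  have h2 := D_strict h h_pos hq
  unfold key
  split_ifs <;> linarith

theorem key_fin (a b : ℝ) (t : ℝ) : {n | key a b (n % 6) (n / 6) ≤ t}.Finite := by
  have h1 := D_fin d d_pos d_not_summable (t + |a| + |b|)
  have h2 := D_fin h h_pos h_not_summable (t + |a| + |b|)
  have h3 : (⋃ r ∈ (range 6 : Finset ℕ), (fun q => 6 * q + r) ''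
      ({q | D d q ≤ t + |a| + |b|} ∪ {q | D h q ≤ t + |a| + |b|})).Finite := by
    apply Set.Finite.biUnion (Finset.finite_toSet _)
    intro r _
    exact (h1.union h2).image _
  refine h3.subset (fun n hn => ?_)
  have hn' : key a b (n % 6) (n / 6) ≤ t := hn
  simp only [Set.mem_iUnion]
  refine ⟨n % 6, by simp [Nat.mod_lt], n / 6, ?_, by show 6 * (n / 6) + n % 6 = n; omega⟩
  have ha1 := neg_abs_le a
  have hb1 := neg_abs_le b
  have ha2 := abs_nonneg a
  have hb2 := abs_nonneg b
  unfold key at hn'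
  split_ifs at hn'
  · left; show D d (n / 6) ≤ _; linarith
  · left; show D d (n / 6) ≤ _; linarith
  · right; show D h (n / 6) ≤ _; linarith
  · right; show D h (n / 6) ≤ _; linarith

theorem sum_split (P : ℕ → Prop) [DecidablePred P] (f : ℕ → ℝ) (p : ℕ → ℕ) (Q : ℕ)
    (hp : ∀ r < 6, ∀ q, P (6 * q + r) ↔ q < p r) (hQ : ∀ r < 6, p r ≤ Q) :
    ∑ i ∈ range (6 * Q), (if P i then f i else 0) =
      ∑ r ∈ range 6, ∑ q ∈ range (p r), f (6 * q + r) := by
  rw [sum6]
  have h1 : ∀ r < 6, ∑ q ∈ range (p r), f (6 * q + r) =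
      ∑ q ∈ range Q, if P (6 * q + r) then f (6 * q + r) else 0 := by
    intro r hr
    rw [← sum_ite_lt _ (p r) Q (hQ r hr)]
    apply sum_congr rfl
    intro q _
    simp only [hp r hr]
  rw [sum_congr rfl (fun r hr => h1 r (mem_range.1 hr)), sum_comm]
  apply sum_congr rfl
  intro q _
  simp [sum_range_succ]

theorem D_close (c : ℕ → ℝ) (hc : ∀ q, 0 < c q) (p p' : ℕ) (h1 : p ≤ p' + 1) (h2 : p' ≤ p + 1) :
    |D c p - D c p'| ≤ c p + c p' := by
  have hp := hc p
  have hp' := hc p'
  rcases (by omega : p = p' ∨ p = p' + 1 ∨ p' = p + 1) with h | h | h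
  · rw [h, sub_self, abs_zero]; linarith [hc p']
  · rw [h, D_succ, add_sub_cancel_left, abs_of_pos hp']
    linarith [hc (p' + 1)]
  · rw [h, D_succ, sub_add_cancel_left, abs_neg, abs_of_pos hp]
    linarith [hc (p + 1)]

theorem SR_univ : SR x = Set.univ := by
  classical
  rw [Set.eq_univ_iff_forall]
  intro s
  set a := s 0 with ha
  set b := s 1 with hb
  let g : ℕ → ℝ := fun n => key a b (n % 6) (n / 6)
  have hg : ∀ r < 6, ∀ q, g (6 * q + r) = key a b r q := by
    intro r hr q
    show key a b ((6 * q + r) % 6) ((6 * q + r) / 6) = _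
    congr 1 <;> omega
  obtain ⟨σ, hσ⟩ := sort_real g (key_fin a b)
  have hcls : ∀ r : ℕ, ∃ p : ℕ → ℕ, r < 6 → (∀ N q, σ.symm (6 * q + r) < N ↔ q < p N) ∧
      (∀ N, g (σ N) ≤ key a b r (p N)) ∧ (∀ N q, q + 1 = p N → key a b r q ≤ g (σ N)) ∧
      Tendsto p atTop atTop := by
    intro r
    by_cases hr : r < 6
    · obtain ⟨p, h1, h2, h3, h4⟩ := cls σ g hσ (fun q => 6 * q + r)
        (fun u v huv => by simpa using huv)
        (fun u v huv => by
          show g (6 * u + r) < g (6 * v + r)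
          rw [hg r hr, hg r hr]; exact key_strict a b r huv)
      refine ⟨p, fun _ => ⟨h1, fun N => ?_, fun N q hq => ?_, h4⟩⟩
      · rw [← hg r hr]; exact h2 N
      · rw [← hg r hr]; exact h3 N q hq
    · exact ⟨fun _ => 0, fun h => absurd h hr⟩
  choose p hp using hcls
  -- the basic limit
  have hlim : ∀ r < 6, ∀ c : ℕ → ℝ, Tendsto c atTop (𝓝 0) →
      (∀ q, key a b r (q + 1) - key a b r q ≤ c q) →
      Tendsto (fun N => key a b r (p r N) - g (σ N)) atTop (𝓝 0) := by
    intro r hr c hc hstep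
    have h1 : Tendsto (fun N => c (p r N - 1)) atTop (𝓝 0) := by
      refine hc.comp ?_
      exact (tendsto_sub_atTop_nat 1).comp (hp r hr).2.2.2
    refine squeeze_zero' (Eventually.of_forall fun N => ?_) ?_ h1
    · linarith [(hp r hr).2.1 N]
    · filter_upwards [(hp r hr).2.2.2.eventually_ge_atTop 1] with N hN
      have h2 := (hp r hr).2.2.1 N (p r N - 1) (by omega)
      have h3 := hstep (p r N - 1)
      rw [Nat.sub_add_cancel hN] at h3
      linarith
  have hsum : ∀ (f : ℕ → ℝ) (N : ℕ), ∑ n ∈ range N, f (σ n) =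
      ∑ r ∈ range 6, ∑ q ∈ range (p r N), f (6 * q + r) := by
    intro f N
    obtain ⟨Q, hQ⟩ : ∃ Q, ∀ r < 6, p r N ≤ Q :=
      ⟨∑ r ∈ range 6, p r N, fun r hr =>
        single_le_sum (f := fun r => p r N) (fun i _ => Nat.zero_le _) (mem_range.2 hr)⟩
    rw [sum_perm σ f N (6 * Q), sum_split (fun i => σ.symm i < N) f (fun r => p r N) Q
      (fun r hr q => (hp r hr).1 N q) hQ]
    intro n hn
    have h1 : σ n = 6 * (σ n / 6) + σ n % 6 := (Nat.div_add_mod _ _).symm
    have h2 : σ n % 6 < 6 := Nat.mod_lt _ (by norm_num)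
    have h3 := ((hp _ h2).1 N (σ n / 6)).1 (by rw [← h1]; simpa using hn)
    have h4 := hQ _ h2
    omega
  refine ⟨σ, ?_⟩
  have l0 := hlim 0 (by norm_num) d d_tendsto (fun q => by simp [key, D_succ])
  have l1 := hlim 1 (by norm_num) d d_tendsto (fun q => by simp [key, D_succ])
  have l2 := hlim 2 (by norm_num) d d_tendsto (fun q => by simp [key, D_succ])
  have l3 := hlim 3 (by norm_num) d d_tendsto (fun q => by simp [key, D_succ])
  have l4 := hlim 4 (by norm_num) h h_tendsto (fun q => by simp [key, D_succ])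
  have l5 := hlim 5 (by norm_num) h h_tendsto (fun q => by simp [key, D_succ])
  -- closeness of the counts with the same key
  have hclose : ∀ r r', r < 6 → r' < 6 → (∀ q, key a b r q = key a b r' q) → ∀ N,
      p r N ≤ p r' N + 1 := by
    intro r r' hr hr' hk N
    by_contra hno
    push Not at hno
    have h1 := (hp r hr).2.2.1 N (p r N - 1) (by omega)
    have h2 := (hp r' hr').2.1 N
    rw [← hk] at h2
    have h3 := (key_strict a b r).le_iff_le.1 (h1.trans h2)
    omega
  have hdiff : ∀ r r', r < 6 → r' < 6 → (∀ q, key a b r q = key a b r' q) →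
      Tendsto (fun N => D h (p r N) - D h (p r' N)) atTop (𝓝 0) := by
    intro r r' hr hr' hk
    have h1 : Tendsto (fun N => h (p r N) + h (p r' N)) atTop (𝓝 0) := by
      have := (h_tendsto.comp (hp r hr).2.2.2).add (h_tendsto.comp (hp r' hr').2.2.2)
      simpa using this
    refine squeeze_zero_norm (fun N => ?_) h1
    rw [Real.norm_eq_abs]
    exact D_close h h_pos _ _ (hclose r r' hr hr' hk N)
      (hclose r' r hr' hr (fun q => (hk q).symm) N)
  have m1 := hdiff 0 1 (by norm_num) (by norm_num) (fun q => by simp [key])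
  have m2 := hdiff 3 2 (by norm_num) (by norm_num) (fun q => by simp [key])
  rw [sumsTo_iff]
  constructor
  · have h1 := (l0.sub l2).add_const a
    rw [sub_self, zero_add] at h1
    refine h1.congr (fun N => ?_)
    rw [hsum (fun n => x n 0) N]
    have e0 : ∀ q, x (6 * q) 0 = px q 0 := fun q => x0_r q 0 (by norm_num)
    have e : ∀ q r, r < 6 → x (6 * q + r) 0 = px q r := x0_r
    simp only [sum_range_succ, sum_range_zero, zero_add, add_zero]
    rw [sum_congr rfl (fun q _ => e0 q), sum_congr rfl (fun q _ => e q 1 (by norm_num)),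
      sum_congr rfl (fun q _ => e q 2 (by norm_num)),
      sum_congr rfl (fun q _ => e q 3 (by norm_num)),
      sum_congr rfl (fun q _ => e q 4 (by norm_num)),
      sum_congr rfl (fun q _ => e q 5 (by norm_num))]
    simp [px, key, D]
    ring
  · have h1 := ((m1.add m2).add (l4.sub l5)).add_const b
    rw [sub_self, add_zero, add_zero, zero_add] at h1
    refine h1.congr (fun N => ?_)
    rw [hsum (fun n => x n 1) N]
    have e0 : ∀ q, x (6 * q) 1 = py q 0 := fun q => x1_r q 0 (by norm_num)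
    have e : ∀ q r, r < 6 → x (6 * q + r) 1 = py q r := x1_r
    simp only [sum_range_succ, sum_range_zero, zero_add, add_zero]
    rw [sum_congr rfl (fun q _ => e0 q), sum_congr rfl (fun q _ => e q 1 (by norm_num)),
      sum_congr rfl (fun q _ => e q 2 (by norm_num)),
      sum_congr rfl (fun q _ => e q 3 (by norm_num)),
      sum_congr rfl (fun q _ => e q 4 (by norm_num)),
      sum_congr rfl (fun q _ => e q 5 (by norm_num))]
    simp [py, key, D]
    ring

/-! ### Levy vectors -/

theorem inner_eq (u v : E) : inner ℝ u v = u 0 * v 0 + u 1 * v 1 := by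
  rw [PiLp.inner_apply, Fin.sum_univ_two]
  simp [mul_comm]

theorem norm_sq (u : E) : ‖u‖ ^ 2 = u 0 ^ 2 + u 1 ^ 2 := by
  rw [EuclideanSpace.norm_sq_eq, Fin.sum_univ_two]
  simp

/-- The two Levy vectors. -/
noncomputable def up : E := !₂[0, 1]
/-- The second one. -/
noncomputable def dn : E := !₂[0, -1]

theorem up0 : up 0 = 0 := rfl
theorem up1 : up 1 = 1 := rfl
theorem dn0 : dn 0 = 0 := rfl
theorem dn1 : dn 1 = -1 := rfl

theorem norm_up : ‖up‖ = 1 := by
  have := norm_sq up
  rw [up0, up1] at this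
  nlinarith [norm_nonneg up]

theorem norm_dn : ‖dn‖ = 1 := by
  have := norm_sq dn
  rw [dn0, dn1] at this
  nlinarith [norm_nonneg dn]

theorem levy_vertical (u : E) (r : ℕ) (hu : ‖u‖ = 1) (h0 : u 0 = 0)
    (hx : ∀ q, x (6 * q + r) 0 = 0) (hy : ∀ q, x (6 * q + r) 1 = u 1 * h q) : u ∈ Levy x := by
  refine ⟨hu, fun ε hε hs => ?_⟩
  have hu1 : u 1 ^ 2 = 1 := by
    have := norm_sq u
    rw [hu, h0] at this
    linarith
  have hn : ∀ q, ‖x (6 * q + r)‖ = h q := by
    intro q
    have h1 := norm_sq (x (6 * q + r))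
    rw [hx, hy, mul_pow, hu1] at h1
    have h2 := h_pos q
    have h3 := norm_nonneg (x (6 * q + r))
    have h4 : ‖x (6 * q + r)‖ ^ 2 = (h q) ^ 2 := by linarith
    exact (sq_eq_sq₀ h3 h2.le).1 h4
  have hmem : ∀ q, x (6 * q + r) ∈ Scone ε u := by
    intro q
    show (1 - ε) * ‖u‖ * ‖x (6 * q + r)‖ ≤ inner ℝ u (x (6 * q + r))
    rw [hu, hn, inner_eq, h0, hy]
    have h2 := h_pos q
    have : u 1 * (u 1 * h q) = h q := by
      rw [← mul_assoc, ← sq, hu1, one_mul]
    rw [this]
    nlinarith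
  have h1 := hs.comp_injective (i := fun q : ℕ => 6 * q + r)
    (fun a b hab => by simpa using hab)
  apply h_not_summable
  refine h1.congr (fun q => ?_)
  show Set.indicator {n | x n ∈ Scone ε u} (fun n => ‖x n‖) (6 * q + r) = _
  rw [Set.indicator_of_mem (show 6 * q + r ∈ {n | x n ∈ Scone ε u} from hmem q), hn]

theorem Levy_eq : Levy x = {up, dn} := by
  ext u
  simp only [Set.mem_insert_iff, Set.mem_singleton_iff]
  constructor
  · rintro ⟨hu, hL⟩
    by_contra hno
    push Not at hno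
    have hsq := norm_sq u
    rw [hu] at hsq
    have hu1 : |u 1| < 1 := by
      rw [abs_lt]
      have h1 : u 1 ^ 2 ≤ 1 := by nlinarith [sq_nonneg (u 0)]
      constructor
      · by_contra hc
        push Not at hc
        have h2 : u 1 = -1 := by nlinarith
        have h3 : u 0 = 0 := by rw [h2] at hsq; nlinarith
        apply hno.2
        ext i
        fin_cases i
        · exact h3
        · exact h2
      · by_contra hc
        push Not at hc
        have h2 : u 1 = 1 := by nlinarith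
        have h3 : u 0 = 0 := by rw [h2] at hsq; nlinarith
        apply hno.1
        ext i
        fin_cases i
        · exact h3
        · exact h2
    set ε := (1 - |u 1|) / 2 with hεdef
    have hε : 0 < ε := by rw [hεdef]; linarith
    apply hL ε hε
    -- eventually `d q < ε * h q`
    have h1 : Tendsto (fun n : ℕ => (1 / 2 : ℝ) ^ (L (n / 6))) atTop (𝓝 0) :=
      h_tendsto.comp div6
    have h2 : ∀ᶠ n in atTop, d (n / 6) < ε * h (n / 6) := by
      filter_upwards [(h_tendsto.comp div6).eventually_lt_const hε,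
        (L_tendsto.comp div6).eventually_ge_atTop 2] with n hn hn2
      have hn' : h (n / 6) < ε := hn
      have hn2' : 2 ≤ L (n / 6) := hn2
      have h3 : d (n / 6) ≤ h (n / 6) * h (n / 6) := by
        unfold d h
        rw [← pow_add]
        apply pow_le_pow_of_le_one (by norm_num) (by norm_num)
        nlinarith
      have := h_pos (n / 6)
      nlinarith
    obtain ⟨N, hN⟩ := h2.exists_forall_of_atTop
    apply summable_of_ne_finset_zero (s := range N)
    intro n hn
    rw [mem_range, not_lt] at hn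
    rw [Set.indicator_of_notMem]
    intro hmem
    have hmem' : (1 - ε) * ‖u‖ * ‖x n‖ ≤ inner ℝ u (x n) := hmem
    rw [hu, inner_eq, mul_one] at hmem'
    have h3 := norm_ge n
    have h4 := hN n hn
    have h5 : |x n 1| = h (n / 6) := by rw [x1]; exact abs_py _ _
    have h6 : |x n 0| ≤ d (n / 6) := by
      rw [x0]
      unfold px
      have := d_pos (n / 6)
      split_ifs
      · rw [abs_of_pos this]
      · rw [abs_neg, abs_of_pos this]
      · rw [abs_zero]; exact this.le
    have h7 : u 1 * x n 1 ≤ |u 1| * h (n / 6) := by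
      rw [← h5, ← abs_mul]; exact le_abs_self _
    have h8 : u 0 * x n 0 ≤ d (n / 6) := by
      refine (le_abs_self _).trans ?_
      rw [abs_mul]
      have h9 : |u 0| ≤ 1 := by
        rw [abs_le_one_iff_mul_self_le_one]
        nlinarith [sq_nonneg (u 1)]
      nlinarith [abs_nonneg (u 0), abs_nonneg (x n 0)]
    have h10 := h_pos (n / 6)
    have h11 : 0 ≤ 1 - ε := by
      rw [hεdef]; linarith [abs_nonneg (u 1)]
    have h12 : (1 - ε) * h (n / 6) ≤ (1 - ε) * ‖x n‖ := mul_le_mul_of_nonneg_left h3 h11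
    have h13 : |u 1| = 1 - 2 * ε := by rw [hεdef]; ring
    rw [h13] at h7
    nlinarith
  · rintro (h | h)
    · rw [h]
      apply levy_vertical up 3 norm_up up0
      · intro q
        rw [x0_r q 3 (by norm_num)]; simp [px]
      · intro q
        rw [x1_r q 3 (by norm_num), up1]; simp [py]
    · rw [h]
      apply levy_vertical dn 5 norm_dn dn0
      · intro q
        rw [x0_r q 5 (by norm_num)]; simp [px]
      · intro q
        rw [x1_r q 5 (by norm_num), dn1]; simp [py]

theorem Levy_card : (Levy x).ncard = 2 := by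
  rw [Levy_eq]
  apply Set.ncard_pair
  intro h
  have h1 : up 1 = dn 1 := by rw [h]
  rw [up1, dn1] at h1
  norm_num at h1

/-! ### The separated order -/

/-- The key of the separated order. -/
def skey (n : ℕ) : ℕ := 2 * L (n / 6) + (if n % 6 = 0 ∨ n % 6 = 2 then 0 else 1)

theorem skey_tendsto : Tendsto skey atTop atTop := by
  refine tendsto_atTop_mono (fun n => ?_) (L_tendsto.comp div6)
  show L (n / 6) ≤ skey n
  unfold skey
  omega

theorem skey_fin (t : ℝ) : {n | (skey n : ℝ) ≤ t}.Finite := by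
  obtain ⟨m, hm⟩ := exists_nat_gt t
  obtain ⟨N, hN⟩ := (skey_tendsto.eventually_ge_atTop m).exists_forall_of_atTop
  refine (Set.finite_lt_nat N).subset (fun n hn => ?_)
  by_contra hno
  have h1 := hN n (by simpa using hno)
  have h2 : (skey n : ℝ) ≤ t := hn
  have h3 : (m : ℝ) ≤ skey n := by exact_mod_cast h1
  linarith

theorem x_prop (k i : ℕ) (hi : skey i = 2 * (k + 1)) :
    x i 0 = (1 / 2) ^ (k * (k + 1)) * x i 1 := by
  have hr : i % 6 = 0 ∨ i % 6 = 2 := by
    by_contra hno
    unfold skey at hi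
    rw [if_neg hno] at hi
    omega
  have hL : L (i / 6) = k + 1 := by
    unfold skey at hi
    rw [if_pos hr] at hi
    omega
  have hd : d (i / 6) = (1 / 2) ^ (k * (k + 1)) * h (i / 6) := by
    unfold d h
    rw [hL, ← pow_add]
    congr 1
    ring
  rw [x0, x1]
  rcases hr with h0 | h0
  · rw [h0]; simp [px, py, hd]
  · rw [h0]; simp [px, py, hd]

theorem x_zero (k i : ℕ) (hi : skey i = 2 * k + 1) : x i 0 = 0 := by
  have hr : ¬ (i % 6 = 0 ∨ i % 6 = 2) := by
    intro h0
    unfold skey at hi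
    rw [if_pos h0] at hi
    omega
  push Not at hr
  rw [x0]
  simp [px, hr.1, hr.2]

theorem x_mult (k i : ℕ) (hi : skey i < 2 * k + 2) (e : ℝ) (he : e = 0 ∨ e = 1) :
    e * x i 0 ∈ AddSubgroup.zmultiples ((1 / 2 : ℝ) ^ (k ^ 2)) := by
  have hL : L (i / 6) ≤ k := by
    unfold skey at hi
    omega
  have hd : d (i / 6) ∈ AddSubgroup.zmultiples ((1 / 2 : ℝ) ^ (k ^ 2)) := by
    rw [AddSubgroup.mem_zmultiples_iff]
    refine ⟨2 ^ (k ^ 2 - L (i / 6) ^ 2), ?_⟩
    have h1 : L (i / 6) ^ 2 ≤ k ^ 2 := Nat.pow_le_pow_left hL 2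
    obtain ⟨m, hm⟩ := Nat.exists_eq_add_of_le h1
    unfold d
    rw [hm, Nat.add_sub_cancel_left, zsmul_eq_mul, pow_add]
    push_cast
    rw [mul_comm, mul_assoc, ← mul_pow]
    norm_num
  rcases he with h0 | h0
  · rw [h0, zero_mul]; exact zero_mem _
  · rw [h0, one_mul, x0]
    unfold px
    split_ifs
    · exact hd
    · exact neg_mem hd
    · exact zero_mem _

theorem third_far (k : ℕ) (w : ℝ) (hw : w ∈ AddSubgroup.zmultiples ((1 / 2 : ℝ) ^ (k ^ 2))) :
    (1 / 3) * (1 / 2 : ℝ) ^ (k ^ 2) ≤ |w - 1 / 3| := by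
  rw [AddSubgroup.mem_zmultiples_iff] at hw
  obtain ⟨z, hz⟩ := hw
  rw [zsmul_eq_mul] at hz
  have h1 : (3 * z - 2 ^ (k ^ 2) : ℤ) ≠ 0 := by
    intro h0
    have h2 : (3 : ℤ) ∣ 2 ^ (k ^ 2) := ⟨z, by linarith⟩
    have h3 : Prime (3 : ℤ) := Int.prime_three
    have h4 := h3.dvd_of_dvd_pow h2
    omega
  have h2 : (1 : ℝ) ≤ |((3 * z - 2 ^ (k ^ 2) : ℤ) : ℝ)| := by
    rw [← Int.cast_abs]
    exact_mod_cast Int.one_le_abs h1
  have h3 : w - 1 / 3 = (1 / 3) * (1 / 2 : ℝ) ^ (k ^ 2) * ((3 * z - 2 ^ (k ^ 2) : ℤ) : ℝ) := by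
    rw [← hz]
    push_cast
    have h4 : (1 / 2 : ℝ) ^ (k ^ 2) * 2 ^ (k ^ 2) = 1 := by
      rw [← mul_pow]; norm_num
    linear_combination (1 / 3 : ℝ) * h4
  rw [h3, abs_mul, abs_of_pos (by positivity)]
  exact le_mul_of_one_le_right (by positivity) h2

theorem separated : ∃ σ : Equiv.Perm ℕ, A (fun n => x (σ n)) ≠ Set.univ := by
  classical
  obtain ⟨σ, hσ⟩ := sort_real (fun n => (skey n : ℝ)) skey_fin
  have hσ' : ∀ n m, n ≤ m → skey (σ n) ≤ skey (σ m) := by
    intro n m hnm
    have h1 : ((skey (σ n) : ℕ) : ℝ) ≤ (skey (σ m) : ℕ) := hσ hnm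
    exact_mod_cast h1
  refine ⟨σ, fun hA => ?_⟩
  have hmem : (!₂[1 / 3, 0] : E) ∈ A (fun n => x (σ n)) := by rw [hA]; trivial
  obtain ⟨ε, hε, hs⟩ := hmem
  rw [sumsTo_iff] at hs
  obtain ⟨hs0, hs1⟩ := hs
  have hex : ∀ t, ∃ n, t ≤ skey (σ n) := by
    intro t
    have h1 := skey_tendsto.comp σ.injective.nat_tendsto_atTop
    exact (h1.eventually_ge_atTop t).exists
  let N : ℕ → ℕ := fun t => Nat.find (hex t)
  have hN : ∀ t n, skey (σ n) < t ↔ n < N t := by
    intro t n
    constructor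
    · intro h1
      by_contra hno
      push Not at hno
      have h2 := Nat.find_spec (hex t)
      have h3 := hσ' _ _ hno
      have h4 : t ≤ skey (σ (N t)) := h2
      omega
    · intro h1
      have := Nat.find_min (hex t) h1
      omega
  have hNt : Tendsto N atTop atTop := by
    rw [tendsto_atTop_atTop]
    intro b
    refine ⟨skey (σ b) + 1, fun t ht => ?_⟩
    exact ((hN t b).1 (by omega)).le
  let F : Fin 2 → ℕ → ℝ := fun j i => ε (σ.symm i) * x i j
  let V : Fin 2 → ℕ → ℝ := fun j t => ∑ n ∈ range (N t), F j (σ n)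
  have hV0 : Tendsto (V 0) atTop (𝓝 (1 / 3)) := by
    refine (hs0.comp hNt).congr (fun t => ?_)
    simp [V, F]
  have hV1 : Tendsto (V 1) atTop (𝓝 0) := by
    refine (hs1.comp hNt).congr (fun t => ?_)
    simp [V, F]
  have hVM : ∀ T, ∃ M, ∀ t ≤ T, ∀ j, V j t = ∑ i ∈ range M, if skey i < t then F j i else 0 := by
    intro T
    obtain ⟨M, hM⟩ := (skey_tendsto.eventually_ge_atTop T).exists_forall_of_atTop
    refine ⟨M, fun t ht j => ?_⟩
    show ∑ n ∈ range (N t), F j (σ n) = _
    rw [sum_perm σ (F j) (N t) M]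
    · apply sum_congr rfl
      intro i _
      have h1 := hN t (σ.symm i)
      rw [Equiv.apply_symm_apply] at h1
      simp only [h1]
    · intro n hn
      by_contra hno
      push Not at hno
      have h1 := hM _ hno
      have h2 := (hN t n).2 hn
      omega
  have hstep : ∀ k, V 0 (2 * (k + 1) + 2) - V 0 (2 * (k + 1)) =
      (1 / 2) ^ (k * (k + 1)) * (V 1 (2 * (k + 1) + 1) - V 1 (2 * (k + 1))) := by
    intro k
    obtain ⟨M, hM⟩ := hVM (2 * (k + 1) + 2)
    rw [hM _ le_rfl, hM _ (by omega), hM _ (by omega), hM _ (by omega), ← sum_sub_distrib,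
      ← sum_sub_distrib, mul_sum]
    apply sum_congr rfl
    intro i _
    rcases (by omega : skey i < 2 * (k + 1) ∨ skey i = 2 * (k + 1) ∨ skey i = 2 * (k + 1) + 1 ∨
      2 * (k + 1) + 2 ≤ skey i) with h1 | h1 | h1 | h1
    · rw [if_pos (by omega), if_pos h1, if_pos (by omega), if_pos h1]; ring
    · rw [if_pos (by omega), if_neg (by omega), if_pos (by omega), if_neg (by omega)]
      show ε _ * x i 0 - 0 = _ * (ε _ * x i 1 - 0)
      rw [x_prop k i h1]; ring
    · rw [if_pos (by omega), if_neg (by omega), if_neg (by omega), if_neg (by omega)]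
      show ε _ * x i 0 - 0 = _
      rw [x_zero (k + 1) i h1]; ring
    · rw [if_neg (by omega), if_neg (by omega), if_neg (by omega), if_neg (by omega)]
      ring
  have hint : ∀ k, V 0 (2 * k + 2) ∈ AddSubgroup.zmultiples ((1 / 2 : ℝ) ^ (k ^ 2)) := by
    intro k
    obtain ⟨M, hM⟩ := hVM (2 * k + 2)
    rw [hM _ le_rfl]
    apply sum_mem
    intro i _
    split_ifs with h1
    · exact x_mult k i h1 _ (hε _)
    · exact zero_mem _
  have hsmall : ∀ᶠ k : ℕ in atTop,
      |V 1 (2 * (k + 1) + 1) - V 1 (2 * (k + 1))| ≤ 1 := by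
    have h1 : Tendsto (fun k : ℕ => 2 * (k + 1) + 1) atTop atTop :=
      tendsto_atTop_atTop.2 fun b => ⟨b, fun a ha => by omega⟩
    have h2 : Tendsto (fun k : ℕ => 2 * (k + 1)) atTop atTop :=
      tendsto_atTop_atTop.2 fun b => ⟨b, fun a ha => by omega⟩
    have h3 := ((hV1.comp h1).sub (hV1.comp h2)).abs
    rw [sub_zero, abs_zero] at h3
    filter_upwards [h3.eventually_lt_const one_pos] with k hk
    exact hk.le
  obtain ⟨K, hK⟩ := hsmall.exists_forall_of_atTop
  set k := max K 3 with hk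
  have hk3 : 3 ≤ k := le_max_right _ _
  have hkK : K ≤ k := le_max_left _ _
  have hdist : dist (V 0 (2 * (k + 0) + 2)) (1 / 3) ≤ 2 * (1 / 2) ^ (k * (k + 1)) := by
    have h1 := dist_le_of_le_geometric_two_of_tendsto₀ (C := 2 * (1 / 2 : ℝ) ^ (k * (k + 1)))
      (f := fun n => V 0 (2 * (k + n) + 2)) (a := (1 / 3 : ℝ)) ?_ ?_
    · exact h1
    · intro n
      rw [dist_comm, Real.dist_eq]
      have h2 := hstep (k + n)
      have e1 : 2 * (k + n + 1) + 2 = 2 * (k + (n + 1)) + 2 := by ring
      have e2 : 2 * (k + n + 1) = 2 * (k + n) + 2 := by ring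
      rw [e1] at h2
      rw [e2] at h2
      rw [h2, abs_mul, abs_of_pos (by positivity)]
      have h3 := hK (k + n) (by omega)
      rw [e2] at h3
      have h4 : (1 / 2 : ℝ) ^ ((k + n) * (k + n + 1)) ≤ (1 / 2) ^ (k * (k + 1) + n) := by
        apply pow_le_pow_of_le_one (by norm_num) (by norm_num)
        nlinarith [Nat.zero_le (k * n), Nat.zero_le (n * n)]
      have h5 : (1 / 2 : ℝ) ^ (k * (k + 1) + n) = 2 * (1 / 2) ^ (k * (k + 1)) / 2 / 2 ^ n := by
        rw [pow_add, one_div_pow 2 n]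
        field_simp
      rw [← h5]
      have h6 : (0 : ℝ) < (1 / 2 : ℝ) ^ ((k + n) * (k + n + 1)) := by positivity
      nlinarith [abs_nonneg (V 1 (2 * (k + n) + 2 + 1) - V 1 (2 * (k + n) + 2))]
    · refine hV0.comp ?_
      exact tendsto_atTop_atTop.2 fun b => ⟨b, fun a ha => by omega⟩
  rw [add_zero, Real.dist_eq] at hdist
  have hfar := third_far k _ (hint k)
  have h1 := hfar.trans hdist
  have h2 : (1 / 2 : ℝ) ^ (k * (k + 1)) = (1 / 2) ^ (k ^ 2) * (1 / 2) ^ k := by
    rw [← pow_add]; congr 1; ring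
  rw [h2] at h1
  have h3 : (0 : ℝ) < (1 / 2) ^ (k ^ 2) := by positivity
  have h4 : (1 / 2 : ℝ) ^ k ≤ (1 / 2) ^ 3 :=
    pow_le_pow_of_le_one (by norm_num) (by norm_num) hk3
  nlinarith

/-- There is a conditionally convergent series in the plane with sum range and achievement set
the whole plane and with exactly two Levy vectors, such that for some permutation the achievement
set of the rearranged series is not the whole plane. -/
theorem result : ∃ x : ℕ → E, CondConv x ∧ SR x = Set.univ ∧ A x = Set.univ ∧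
    (Levy x).ncard = 2 ∧ ∃ σ : Equiv.Perm ℕ, A (fun n => x (σ n)) ≠ Set.univ :=
  ⟨x, ⟨⟨0, x_sumsTo⟩, x_not_summable⟩, SR_univ, A_univ, Levy_card, separated⟩

end Pool.Agent.Results.MP_89b5f7_an.LevyTwo
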